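import Mathlib

/-!
# A graph with unit bar visibility number larger than `⌈(n-1)/3⌉`

The complete graph on four vertices has unit bar visibility number `2 > ⌈(4-1)/3⌉`.
-/

namespace Pool.Agent.Results.MP_aa954a_co.LargerThanStar

open Set

/-- A bar is given by its left end point; it is the closed horizontal segment of length `1` that
starts there. -/
abbrev Bar := ℝ × ℝ

/-- The points of a bar. -/
def pts (b : Bar) : Set (ℝ × ℝ) := Icc b.1 (b.1 + 1) ×ˢ {b.2}

/-- The bars `b` and `b'` see each other among the bars of `S`: there is a non-degenerate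
axis-parallel rectangle whose bottom side lies in one of them and whose top side lies in the other,
and which meets no other bar of `S`. -/
def Sees (S : Set Bar) (b b' : Bar) : Prop :=
  ∃ a c y₁ y₂ : ℝ, a < c ∧ y₁ < y₂ ∧
    ((Icc a c ×ˢ {y₁} ⊆ pts b ∧ Icc a c ×ˢ {y₂} ⊆ pts b') ∨
      (Icc a c ×ˢ {y₁} ⊆ pts b' ∧ Icc a c ×ˢ {y₂} ⊆ pts b)) ∧
    ∀ b'' ∈ S, b'' ≠ b → b'' ≠ b' → Disjoint (Icc a c ×ˢ Icc y₁ y₂) (pts b'')

/-- `G` has a `t`-unit-bar visibility representation. -/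
def HasRep {V : Type} (G : SimpleGraph V) (t : ℕ) : Prop :=
  ∃ β : V → Finset Bar, (∀ v, (β v).card ≤ t) ∧
    (∀ v v' b b', b ∈ β v → b' ∈ β v' → (v ≠ v' ∨ b ≠ b') → Disjoint (pts b) (pts b')) ∧
    ∀ x y, x ≠ y → (G.Adj x y ↔ ∃ b ∈ β x, ∃ b' ∈ β y, Sees (⋃ v, (β v : Set Bar)) b b')

/-- `u` is the unit bar visibility number of `G`: the least positive `t` for which `G` has a
`t`-unit-bar visibility representation. -/
def IsUnitBarNumber {V : Type} (G : SimpleGraph V) (u : ℕ) : Prop :=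
  IsLeast {t : ℕ | 0 < t ∧ HasRep G t} u

/-- consequences of a visibility, when `b` is below `b'` -/
theorem sees_below {S : Set Bar} {b b' : Bar} (h : Sees S b b') (hlt : b.2 < b'.2) :
    ∃ a c : ℝ, a < c ∧ b.1 ≤ a ∧ c ≤ b.1 + 1 ∧ b'.1 ≤ a ∧ c ≤ b'.1 + 1 ∧
      ∀ b'' ∈ S, b.2 < b''.2 → b''.2 < b'.2 → (c < b''.1 ∨ b''.1 + 1 < a) := by
  obtain ⟨a, c, y₁, y₂, hac, hy, h1, h2⟩ := h
  have ha : a ∈ Icc a c := ⟨le_refl _, hac.le⟩
  have hc : c ∈ Icc a c := ⟨hac.le, le_refl _⟩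
  have key : Icc a c ×ˢ {y₁} ⊆ pts b ∧ Icc a c ×ˢ {y₂} ⊆ pts b' := by
    rcases h1 with h1 | h1
    · exact h1
    · exfalso
      have e1 := h1.1 (show (a, y₁) ∈ Icc a c ×ˢ {y₁} from ⟨ha, rfl⟩)
      have e2 := h1.2 (show (a, y₂) ∈ Icc a c ×ˢ {y₂} from ⟨ha, rfl⟩)
      have e3 : y₁ = b'.2 := e1.2
      have e4 : y₂ = b.2 := e2.2
      linarith
  have e1 := key.1 (show (a, y₁) ∈ Icc a c ×ˢ {y₁} from ⟨ha, rfl⟩)
  have e2 := key.2 (show (a, y₂) ∈ Icc a c ×ˢ {y₂} from ⟨ha, rfl⟩)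
  have e3 := key.1 (show (c, y₁) ∈ Icc a c ×ˢ {y₁} from ⟨hc, rfl⟩)
  have e4 := key.2 (show (c, y₂) ∈ Icc a c ×ˢ {y₂} from ⟨hc, rfl⟩)
  have f1 : y₁ = b.2 := e1.2
  have f2 : y₂ = b'.2 := e2.2
  refine ⟨a, c, hac, e1.1.1, e3.1.2, e2.1.1, e4.1.2, ?_⟩
  intro b'' hb'' g1 g2
  by_contra hcon
  push Not at hcon
  have hne1 : b'' ≠ b := by rintro rfl; exact lt_irrefl _ g1
  have hne2 : b'' ≠ b' := by rintro rfl; exact lt_irrefl _ g2
  have hd := h2 b'' hb'' hne1 hne2
  rw [Set.disjoint_left] at hd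
  have hmax : (max a b''.1, b''.2) ∈ Icc a c ×ˢ Icc y₁ y₂ := by
    refine ⟨⟨le_max_left _ _, max_le hac.le hcon.1⟩, ?_, ?_⟩
    · change y₁ ≤ b''.2; linarith
    · change b''.2 ≤ y₂; linarith
  apply hd hmax
  exact ⟨⟨le_max_right _ _, max_le hcon.2 (by linarith)⟩, rfl⟩

/-- The visibility of two bars forces different heights. -/
theorem sees_ne {S : Set Bar} {b b' : Bar} (h : Sees S b b') : b.2 ≠ b'.2 := by
  obtain ⟨a, c, y₁, y₂, hac, hy, h1, -⟩ := h
  have ha : a ∈ Icc a c := ⟨le_refl _, hac.le⟩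
  rcases h1 with h1 | h1
  · have e1 := h1.1 (show (a, y₁) ∈ Icc a c ×ˢ {y₁} from ⟨ha, rfl⟩)
    have e2 := h1.2 (show (a, y₂) ∈ Icc a c ×ˢ {y₂} from ⟨ha, rfl⟩)
    have e3 : y₁ = b.2 := e1.2
    have e4 : y₂ = b'.2 := e2.2
    intro h; linarith
  · have e1 := h1.1 (show (a, y₁) ∈ Icc a c ×ˢ {y₁} from ⟨ha, rfl⟩)
    have e2 := h1.2 (show (a, y₂) ∈ Icc a c ×ˢ {y₂} from ⟨ha, rfl⟩)
    have e3 : y₁ = b'.2 := e1.2
    have e4 : y₂ = b.2 := e2.2
    intro h; linarith

/-- Four unit bars cannot see each other pairwise. -/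
theorem no_four {S : Set Bar} (b : Fin 4 → Bar) (hS : ∀ i, b i ∈ S)
    (h : ∀ i j, i ≠ j → Sees S (b i) (b j)) : False := by
  have hinj : Function.Injective (fun i => (b i).2) := by
    intro i j hij
    by_contra hne
    exact sees_ne (h i j hne) hij
  set σ := Tuple.sort (fun i => (b i).2) with hσ
  have hmono : StrictMono ((fun i => (b i).2) ∘ σ) :=
    (Tuple.monotone_sort (fun i => (b i).2)).strictMono_of_injective
      (hinj.comp σ.injective)
  have m01 : (b (σ 0)).2 < (b (σ 1)).2 := hmono (by decide)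
  have m12 : (b (σ 1)).2 < (b (σ 2)).2 := hmono (by decide)
  have m23 : (b (σ 2)).2 < (b (σ 3)).2 := hmono (by decide)
  have hne : ∀ i j : Fin 4, i ≠ j → σ i ≠ σ j := fun i j hij h => hij (σ.injective h)
  obtain ⟨a, c, g1, g2, g3, g4, g5, g6⟩ :=
    sees_below (h (σ 0) (σ 3) (hne _ _ (by decide))) (by linarith)
  obtain ⟨a1, c1, p1, p2, p3, p4, p5, -⟩ :=
    sees_below (h (σ 1) (σ 2) (hne _ _ (by decide))) m12
  obtain ⟨a2, c2, q1, q2, q3, q4, q5, q6⟩ :=
    sees_below (h (σ 0) (σ 2) (hne _ _ (by decide))) (by linarith)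
  obtain ⟨a3, c3, r1, r2, r3, r4, r5, r6⟩ :=
    sees_below (h (σ 1) (σ 3) (hne _ _ (by decide))) (by linarith)
  have k1 := g6 _ (hS (σ 1)) m01 (by linarith)
  have k2 := g6 _ (hS (σ 2)) (by linarith) m23
  have k3 := q6 _ (hS (σ 1)) m01 m12
  have k4 := r6 _ (hS (σ 2)) m12 m23
  rcases k1 with k1 | k1 <;> rcases k2 with k2 | k2 <;> rcases k3 with k3 | k3 <;>
    rcases k4 with k4 | k4 <;> linarith

theorem no_rep_one {t : ℕ} (ht : t ≤ 1) : ¬ HasRep (⊤ : SimpleGraph (Fin 4)) t := by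
  rintro ⟨β, h1, h2, h3⟩
  have hex : ∀ i : Fin 4, ∃ b, β i = {b} := by
    intro i
    have hne : ∃ j : Fin 4, i ≠ j := by
      revert i; decide
    obtain ⟨j, hij⟩ := hne
    obtain ⟨b, hb, -⟩ := (h3 i j hij).1 (by simpa using hij)
    have h4 : (β i).card = 1 := by
      have h5 := h1 i
      have h6 : 0 < (β i).card := Finset.card_pos.2 ⟨b, hb⟩
      omega
    exact Finset.card_eq_one.1 h4
  choose b hb using hex
  apply no_four (S := ⋃ v, (β v : Set Bar)) b
  · intro i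
    refine mem_iUnion.2 ⟨i, ?_⟩
    rw [hb i]
    simp
  · intro i j hij
    obtain ⟨c, hc, c', hc', hs⟩ := (h3 i j hij).1 (by simpa using hij)
    rw [hb i, Finset.mem_singleton] at hc
    rw [hb j, Finset.mem_singleton] at hc'
    rw [hc, hc'] at hs
    exact hs

/-- The bars of the two staircases: `s k` and `s' k` for `k = 0, 1, 2, 3`. -/
noncomputable def st (k : Fin 8) : Bar :=
  (if k.1 < 4 then (6 / 10 : ℝ) * k.1 else (6 / 10 : ℝ) * k.1 + 100, k.1)

theorem st_snd (k : Fin 8) : (st k).2 = k.1 := rfl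

theorem st_disjoint {k l : Fin 8} (h : k ≠ l) : Disjoint (pts (st k)) (pts (st l)) := by
  rw [Set.disjoint_left]
  rintro ⟨x, y⟩ h1 h2
  have e1 : y = k.1 := h1.2
  have e2 : y = l.1 := h2.2
  apply h
  apply Fin.ext
  have : (k.1 : ℝ) = l.1 := by rw [← e1, ← e2]
  exact_mod_cast this

theorem st_inj {k l : Fin 8} (h : st k = st l) : k = l := by
  have := congrArg Prod.snd h
  rw [st_snd, st_snd] at this
  apply Fin.ext
  exact_mod_cast this

/-- consecutive bars of one staircase see each other -/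
theorem st_sees {S : Set Bar} (hS : ∀ b ∈ S, ∃ k, b = st k) (k l : Fin 8) (hkl : k.1 + 1 = l.1)
    (hk : k.1 ≠ 3) : Sees S (st k) (st l) := by
  have hl : (l.1 : ℝ) = k.1 + 1 := by rw [← hkl]; push_cast; rfl
  have hx : (st l).1 = (st k).1 + 6 / 10 := by
    unfold st
    by_cases h : k.1 < 4
    · have h' : l.1 < 4 := by omega
      simp only [h, h', if_true]
      rw [hl]; ring
    · have h' : ¬ l.1 < 4 := by omega
      simp only [h, h', if_false]
      rw [hl]; ring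
  refine ⟨(st k).1 + 7 / 10, (st k).1 + 9 / 10, (st k).2, (st l).2, by linarith, ?_, Or.inl ⟨?_, ?_⟩, ?_⟩
  · rw [st_snd, st_snd, hl]; linarith
  · rintro ⟨x, y⟩ ⟨h1, h2⟩
    refine ⟨⟨?_, ?_⟩, h2⟩
    · have := h1.1; simp only at this; linarith
    · have := h1.2; simp only at this; linarith
  · rintro ⟨x, y⟩ ⟨h1, h2⟩
    refine ⟨⟨?_, ?_⟩, h2⟩
    · have := h1.1; simp only at this; linarith
    · have := h1.2; simp only at this; linarith
  · intro b'' hb'' hne1 hne2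
    obtain ⟨j, rfl⟩ := hS b'' hb''
    rw [Set.disjoint_left]
    rintro ⟨x, y⟩ ⟨-, h2⟩ ⟨-, h4⟩
    have e1 : y = j.1 := h4
    have e2 : (k.1 : ℝ) ≤ y := h2.1
    have e3 : y ≤ l.1 := h2.2
    rw [e1] at e2 e3
    have e4 : k.1 ≤ j.1 := by exact_mod_cast e2
    have e5 : j.1 ≤ l.1 := by exact_mod_cast e3
    have e6 : j.1 = k.1 ∨ j.1 = l.1 := by omega
    rcases e6 with e6 | e6
    · exact hne1 (by rw [Fin.ext e6])
    · exact hne2 (by rw [Fin.ext e6])

theorem sees_symm {S : Set Bar} {b b' : Bar} (h : Sees S b b') : Sees S b' b := by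
  obtain ⟨a, c, y₁, y₂, hac, hy, h1, h2⟩ := h
  exact ⟨a, c, y₁, y₂, hac, hy, h1.symm, fun b'' hb'' n1 n2 => h2 b'' hb'' n2 n1⟩

/-- the vertex of the second bar: the second staircase is `1, 3, 0, 2` -/
def second (i : Fin 4) : Fin 8 :=
  match i with
  | 0 => 6
  | 1 => 4
  | 2 => 7
  | 3 => 5

/-- the first bar of a vertex -/
def first (i : Fin 4) : Fin 8 :=
  match i with
  | 0 => 0
  | 1 => 1
  | 2 => 2
  | 3 => 3

theorem has_rep_two : HasRep (⊤ : SimpleGraph (Fin 4)) 2 := by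
  classical
  refine ⟨fun i => {st (first i), st (second i)}, fun v => Finset.card_le_two, ?_, ?_⟩
  · intro v v' b b' hb hb' hne
    rw [Finset.mem_insert, Finset.mem_singleton] at hb hb'
    have hinj1 : ∀ i j : Fin 4, first i = first j → i = j := by decide
    have hinj2 : ∀ i j : Fin 4, second i = second j → i = j := by decide
    have hfs : ∀ i j : Fin 4, first i ≠ second j := by decide
    rcases hb with rfl | rfl <;> rcases hb' with rfl | rfl
    · apply st_disjoint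
      rintro h
      rcases hne with h1 | h1
      · exact h1 (hinj1 _ _ h)
      · exact h1 (by rw [h])
    · exact st_disjoint (hfs _ _)
    · exact st_disjoint (hfs _ _).symm
    · apply st_disjoint
      rintro h
      rcases hne with h1 | h1
      · exact h1 (hinj2 _ _ h)
      · exact h1 (by rw [h])
  · intro x y hxy
    refine ⟨fun _ => ?_, fun _ => by simpa using hxy⟩
    set S : Set Bar := ⋃ v, ((({st (first v), st (second v)} : Finset Bar)) : Set Bar) with hSdef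
    have hS : ∀ b ∈ S, ∃ k, b = st k := by
      intro b hb
      obtain ⟨v, hv⟩ := mem_iUnion.1 hb
      simp only [Finset.coe_insert, Finset.coe_singleton, mem_insert_iff, mem_singleton_iff] at hv
      rcases hv with h | h
      · exact ⟨_, h⟩
      · exact ⟨_, h⟩
    have key : ∀ x y : Fin 4, x ≠ y → ((first x).1 + 1 = (first y).1 ∧ (first x).1 ≠ 3) ∨
        ((first y).1 + 1 = (first x).1 ∧ (first y).1 ≠ 3) ∨
        ((second x).1 + 1 = (second y).1 ∧ (second x).1 ≠ 3) ∨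
        ((second y).1 + 1 = (second x).1 ∧ (second y).1 ≠ 3) := by decide
    rcases key x y hxy with ⟨h1, h2⟩ | ⟨h1, h2⟩ | ⟨h1, h2⟩ | ⟨h1, h2⟩
    · exact ⟨st (first x), by simp, st (first y), by simp, st_sees hS _ _ h1 h2⟩
    · exact ⟨st (first x), by simp, st (first y), by simp, sees_symm (st_sees hS _ _ h1 h2)⟩
    · exact ⟨st (second x), by simp, st (second y), by simp, st_sees hS _ _ h1 h2⟩
    · exact ⟨st (second x), by simp, st (second y), by simp, sees_symm (st_sees hS _ _ h1 h2)⟩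

/-- **Theorem.** There are `n` and a graph on `n` vertices whose unit bar visibility number is
larger than `⌈(n-1)/3⌉`. -/
theorem result : ∃ (n : ℕ) (G : SimpleGraph (Fin n)) (u : ℕ),
    IsUnitBarNumber G u ∧ ⌈((n : ℚ) - 1) / 3⌉ < (u : ℤ) := by
  refine ⟨4, ⊤, 2, ⟨⟨by norm_num, has_rep_two⟩, ?_⟩, ?_⟩
  · rintro t ⟨-, ht⟩
    by_contra hcon
    exact no_rep_one (by omega) ht
  · norm_num

end Pool.Agent.Results.MP_aa954a_co.LargerThanStar
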